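import Pool.Agent.Helper1.BSX.Stmts

set_option autoImplicit false

/-!
# CONJ: extensions of a valuation ring to an algebraic closure are conjugate (helper46)
-/

namespace Pool.Agent.Helper1.BSX

section

variable {U : Type} [Field U] {S : Subfield U}

/-- `V` and `W` have the same trace on `S` -/
def conj_same (S : Subfield U) (V W : ValuationSubring U) : Prop := ∀ x ∈ S, x ∈ V ↔ x ∈ W

theorem conj_lt {V W : ValuationSubring U} (h : conj_same S V W) {x : U} (hx : x ∈ S) :
    V.valuation x < 1 ↔ W.valuation x < 1 := by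
  rw [← ValuationSubring.mem_nonunits_iff, ← ValuationSubring.mem_nonunits_iff,
    ValuationSubring.mem_nonunits_iff_or, ValuationSubring.mem_nonunits_iff_or,
    h _ (inv_mem hx)]

theorem conj_mem {V W : ValuationSubring U} (h : conj_same S V W) {x : U} (hx : x ∈ S) :
    V.valuation x ≤ 1 ↔ W.valuation x ≤ 1 := by
  rw [ValuationSubring.valuation_le_one_iff, ValuationSubring.valuation_le_one_iff, h x hx]

/-- the normalised relation of `x` -/
theorem conj_rel [Algebra.IsAlgebraic S U] (V₁ : ValuationSubring U) (x : U) :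
    ∃ (s : Finset ℕ) (j : ℕ) (q : ℕ → U), j ∉ s ∧ (∀ i, q i ∈ S) ∧
      x ^ j + ∑ i ∈ s, q i * x ^ i = 0 ∧ (∀ i ∈ s, V₁.valuation (q i) ≤ 1) ∧
      ∀ i ∈ s, j < i → V₁.valuation (q i) < 1 := by
  classical
  obtain ⟨p, hp0, hpx⟩ := Algebra.IsAlgebraic.isAlgebraic (R := S) x
  have hsum : ∑ i ∈ p.support, (p.coeff i : U) * x ^ i = 0 := by
    rw [Polynomial.aeval_def, Polynomial.eval₂_eq_sum, Polynomial.sum_def] at hpx
    exact hpx
  have hne : p.support.Nonempty := Polynomial.nonempty_support_iff.mpr hp0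
  obtain ⟨i0, hi0, hmax⟩ := Finset.exists_max_image p.support
    (fun i => V₁.valuation (p.coeff i : U)) hne
  set T := p.support.filter
    (fun i => V₁.valuation (p.coeff i : U) = V₁.valuation (p.coeff i0 : U)) with hT
  have hTne : T.Nonempty := ⟨i0, by rw [hT, Finset.mem_filter]; exact ⟨hi0, rfl⟩⟩
  set j := T.max' hTne with hj
  have hjT : j ∈ T := Finset.max'_mem T hTne
  rw [hT, Finset.mem_filter] at hjT
  obtain ⟨hjs, hjv⟩ := hjT
  have hj0 : (p.coeff j : U) ≠ 0 := by
    have := Polynomial.mem_support_iff.mp hjs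
    intro h
    exact this (Subtype.ext h)
  have hvj : V₁.valuation (p.coeff j : U) ≠ 0 := by
    rw [Valuation.ne_zero_iff]
    exact hj0
  refine ⟨p.support.erase j, j, fun i => (p.coeff i : U) / (p.coeff j : U),
    Finset.notMem_erase _ _, fun i => div_mem (p.coeff i).2 (p.coeff j).2, ?_, ?_, ?_⟩
  · have h1 := Finset.add_sum_erase p.support (fun i => (p.coeff i : U) * x ^ i) hjs
    rw [hsum] at h1
    have h2 : ∑ i ∈ p.support.erase j, (p.coeff i : U) / (p.coeff j : U) * x ^ i =
        (∑ i ∈ p.support.erase j, (p.coeff i : U) * x ^ i) / (p.coeff j : U) := by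
      rw [Finset.sum_div]
      refine Finset.sum_congr rfl fun i _ => ?_
      ring
    rw [h2]
    field_simp
    rw [mul_comm, h1, mul_zero]
  · intro i hi
    rw [map_div₀]
    have h1 := hmax i (Finset.mem_of_mem_erase hi)
    rw [← hjv] at h1
    exact div_le_one_of_le₀ h1 zero_le'
  · intro i hi hji
    have his := Finset.mem_of_mem_erase hi
    have h1 := hmax i his
    have h2 : V₁.valuation (p.coeff i : U) ≠ V₁.valuation (p.coeff i0 : U) := by
      intro h
      have : i ∈ T := by rw [hT, Finset.mem_filter]; exact ⟨his, h⟩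
      have := Finset.le_max' T i this
      rw [← hj] at this
      omega
    have h3 := lt_of_le_of_ne h1 h2
    rw [← hjv] at h3
    rw [map_div₀]
    exact (div_lt_one₀ (zero_lt_iff.mpr hvj)).mpr h3

/-- the determining element `d` of `x` -/
theorem conj_det [Algebra.IsAlgebraic S U] (V₁ : ValuationSubring U) (x : U) :
    ∃ d : U, ∀ V : ValuationSubring U, conj_same S V V₁ →
      d ∈ V ∧ (x ∈ V ↔ ¬ V.valuation d < 1) := by
  classical
  by_cases hx0 : x = 0
  · refine ⟨1, fun V _ => ⟨V.one_mem, ?_⟩⟩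
    rw [hx0]
    simp [V.zero_mem]
  obtain ⟨s, j, q, hjs, hqS, hrel, hq1, hq2⟩ := conj_rel (S := S) V₁ x
  set A := ∑ i ∈ s.filter (fun i => ¬ i < j), q i * x ^ (i - j) with hA
  set B := ∑ i ∈ s.filter (fun i => i < j), q i * (x⁻¹) ^ (j - i) with hB
  have hAB : 1 + A + B = 0 := by
    have h1 : x ^ j * (1 + A + B) = 0 := by
      rw [← hrel, mul_add, mul_add, mul_one, hA, hB, Finset.mul_sum, Finset.mul_sum,
        ← Finset.sum_filter_add_sum_filter_not s (fun i => i < j) (fun i => q i * x ^ i)]
      have e1 : ∑ i ∈ s.filter (fun i => ¬ i < j), x ^ j * (q i * x ^ (i - j)) =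
          ∑ i ∈ s.filter (fun i => ¬ i < j), q i * x ^ i := by
        refine Finset.sum_congr rfl fun i hi => ?_
        rw [Finset.mem_filter] at hi
        have : x ^ i = x ^ j * x ^ (i - j) := by
          rw [← pow_add]
          congr 1
          omega
        rw [this]; ring
      have e2 : ∑ i ∈ s.filter (fun i => i < j), x ^ j * (q i * (x⁻¹) ^ (j - i)) =
          ∑ i ∈ s.filter (fun i => i < j), q i * x ^ i := by
        refine Finset.sum_congr rfl fun i hi => ?_
        rw [Finset.mem_filter] at hi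
        have : x ^ j = x ^ i * x ^ (j - i) := by
          rw [← pow_add]
          congr 1
          omega
        rw [this]
        have h2 : x ^ (j - i) * (x⁻¹) ^ (j - i) = 1 := by
          rw [← mul_pow, mul_inv_cancel₀ hx0, one_pow]
        linear_combination (q i * x ^ i) * h2
      rw [e1, e2]
      ring
    rcases mul_eq_zero.mp h1 with h | h
    · exact absurd h (pow_ne_zero _ hx0)
    · exact h
  refine ⟨1 + A, fun V hV => ?_⟩
  have hlt : ∀ i ∈ s, j < i → V.valuation (q i) < 1 := fun i hi hji =>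
    (conj_lt hV (hqS i)).mpr (hq2 i hi hji)
  have hle : ∀ i ∈ s, V.valuation (q i) ≤ 1 := fun i hi =>
    (conj_mem hV (hqS i)).mpr (hq1 i hi)
  by_cases hx : x ∈ V
  · have hvx : V.valuation x ≤ 1 := (V.valuation_le_one_iff x).mpr hx
    have hvA : V.valuation A < 1 := by
      rw [hA]
      apply Valuation.map_sum_lt _ one_ne_zero
      intro i hi
      rw [Finset.mem_filter] at hi
      have hji : j < i := by
        have : i ≠ j := fun h => hjs (h ▸ hi.1)
        omega
      rw [map_mul, map_pow]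
      exact mul_lt_one_of_lt_of_le (hlt i hi.1 hji) (pow_le_one₀ zero_le' hvx)
    have hv : V.valuation (1 + A) = 1 := Valuation.map_one_add_of_lt _ hvA
    refine ⟨(V.valuation_le_one_iff _).mp hv.le, ?_⟩
    rw [hv]
    simp [hx]
  · have hvx : V.valuation x⁻¹ < 1 := by
      rw [← ValuationSubring.mem_nonunits_iff, ValuationSubring.mem_nonunits_iff_or, inv_inv]
      exact Or.inr hx
    have hvB : V.valuation B < 1 := by
      rw [hB]
      apply Valuation.map_sum_lt _ one_ne_zero
      intro i hi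
      rw [Finset.mem_filter] at hi
      rw [map_mul, map_pow]
      exact lt_of_le_of_lt (mul_le_mul_left (hle i hi.1) _)
        (by rw [one_mul]; exact pow_lt_one₀ zero_le' hvx (by omega))
    have hv : V.valuation (1 + A) < 1 := by
      have : 1 + A = -B := by linear_combination hAB
      rw [this, Valuation.map_neg]
      exact hvB
    refine ⟨(V.valuation_le_one_iff _).mp hv.le, ?_⟩
    simp [hx, hv]

/-- the intersection of all valuation rings with the same trace -/
def conj_R (S : Subfield U) (V₁ : ValuationSubring U) : Subring U :=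
  sInf ((fun V : ValuationSubring U => V.toSubring) '' {V | conj_same S V V₁})

theorem conj_memR {V₁ : ValuationSubring U} {x : U} :
    x ∈ conj_R S V₁ ↔ ∀ V, conj_same S V V₁ → x ∈ V := by
  unfold conj_R
  rw [Subring.mem_sInf]
  constructor
  · intro h V hV
    exact h _ ⟨V, hV, rfl⟩
  · rintro h _ ⟨V, hV, rfl⟩
    exact h V hV

theorem conj_comap {V₁ V : ValuationSubring U} (hV : conj_same S V V₁) (g : U ≃ₐ[S] U) :
    conj_same S (V.comap (g : U →+* U)) V₁ := by
  intro x hx
  rw [ValuationSubring.mem_comap]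
  have : (g : U →+* U) x = x := g.commutes ⟨x, hx⟩
  rw [this]
  exact hV x hx

theorem conj_inv (V₁ : ValuationSubring U) : IsInvariantSubring (U ≃ₐ[S] U) (conj_R S V₁) := by
  constructor
  intro g x hx
  rw [conj_memR] at hx ⊢
  intro V hV
  have := hx _ (conj_comap hV g)
  rw [ValuationSubring.mem_comap] at this
  exact this

/-- the centre of `V` on `conj_R` -/
def conj_P {V₁ : ValuationSubring U} (V : ValuationSubring U) (hV : conj_same S V V₁) :
    Ideal (conj_R S V₁) :=
  (IsLocalRing.maximalIdeal V).comap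
    (Subring.inclusion (show conj_R S V₁ ≤ V.toSubring from fun _ hx => conj_memR.mp hx V hV))

theorem conj_memP {V₁ V : ValuationSubring U} (hV : conj_same S V V₁) (x : conj_R S V₁) :
    x ∈ conj_P V hV ↔ V.valuation (x : U) < 1 := by
  unfold conj_P
  rw [Ideal.mem_comap, ValuationSubring.valuation_lt_one_iff]
  rfl

instance conj_prime {V₁ V : ValuationSubring U} (hV : conj_same S V V₁) : (conj_P V hV).IsPrime := by
  unfold conj_P
  exact Ideal.IsPrime.comap _

/-- two valuation rings above `O` with the same centre are equal -/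
theorem conj_eq [Algebra.IsAlgebraic S U] {V₁ V W : ValuationSubring U} (hV : conj_same S V V₁)
    (hW : conj_same S W V₁) (h : ∀ x ∈ conj_R S V₁, V.valuation x < 1 ↔ W.valuation x < 1) (x : U) :
    x ∈ V ↔ x ∈ W := by
  obtain ⟨d, hd⟩ := conj_det (S := S) V₁ x
  have hdR : d ∈ conj_R S V₁ := conj_memR.mpr fun V hV => (hd V hV).1
  rw [(hd V hV).2, (hd W hW).2, h d hdR]

end

theorem st_CONJ : ST_CONJ := by
  intro U _ _ _ S hS V₁ V₂ h12
  haveI : IsAlgClosure S U := ⟨inferInstance, hS⟩
  haveI : Normal S U := IsAlgClosure.normal S U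
  haveI : IsGalois S U := ⟨⟩
  have h11 : conj_same S V₁ V₁ := fun _ _ => Iff.rfl
  have h21 : conj_same S V₂ V₁ := fun x hx => (h12 x hx).symm
  let R := conj_R S V₁
  let O : Subring U := V₁.toSubring ⊓ S.toSubring
  have hOR : O ≤ R := by
    intro x hx
    refine conj_memR.mpr fun V hV => ?_
    exact (hV x hx.2).mpr hx.1
  letI : Algebra O R := (Subring.inclusion hOR).toAlgebra
  haveI : IsInvariantSubring (U ≃ₐ[S] U) R := conj_inv V₁
  letI : TopologicalSpace R := ⊥
  haveI : DiscreteTopology R := ⟨rfl⟩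
  haveI : ContinuousSMul (U ≃ₐ[S] U) R := by
    rw [continuousSMul_iff_stabilizer_isOpen]
    intro x
    have h1 := stabilizer_isOpen_of_isIntegral (K := S) (L := U) (x : U)
    have h2 : (MulAction.stabilizer (U ≃ₐ[S] U) x : Set (U ≃ₐ[S] U)) =
        (MulAction.stabilizer (U ≃ₐ[S] U) (x : U) : Set (U ≃ₐ[S] U)) := by
      ext g
      simp only [SetLike.mem_coe, MulAction.mem_stabilizer_iff]
      constructor
      · intro h
        exact congrArg Subtype.val h
      · intro h
        exact Subtype.ext h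
    rw [h2]
    exact h1
  haveI : SMulCommClass (U ≃ₐ[S] U) O R := by
    constructor
    intro g a r
    apply Subtype.ext
    have e1 : g (a : U) = a := g.commutes ⟨a, a.2.2⟩
    change g ((a : U) * (r : U)) = (a : U) * g (r : U)
    rw [map_mul, e1]
  haveI : Algebra.IsInvariant O R (U ≃ₐ[S] U) := by
    constructor
    intro r hr
    have h1 : ∀ g : U ≃ₐ[S] U, g (r : U) = r := fun g => congrArg Subtype.val (hr g)
    obtain ⟨a, ha⟩ := (InfiniteGalois.mem_range_algebraMap_iff_fixed (k := S) (r : U)).mpr h1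
    refine ⟨⟨r, ?_, ?_⟩, rfl⟩
    · exact conj_memR.mp r.2 V₁ h11
    · rw [← ha]
      exact a.2
  obtain ⟨g, hg⟩ := Algebra.IsInvariant.exists_smul_of_under_eq_of_profinite (A := O) (B := R)
    (G := U ≃ₐ[S] U) (conj_P V₁ h11) (conj_P V₂ h21) (by
      ext a
      rw [Ideal.mem_comap, Ideal.mem_comap, conj_memP, conj_memP]
      exact (conj_lt h21 a.2.2).symm)
  refine ⟨g, fun x => ?_⟩
  have h3 : conj_same S (V₁.comap ((g⁻¹ : U ≃ₐ[S] U) : U →+* U)) V₁ := conj_comap h11 g⁻¹
  have h4 := conj_eq h3 h21 (by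
    intro y hy
    have e1 := conj_memP h21 (⟨y, hy⟩ : conj_R S V₁)
    rw [hg, Ideal.mem_pointwise_smul_iff_inv_smul_mem, conj_memP] at e1
    rw [← e1, ← ValuationSubring.mem_nonunits_iff, ← ValuationSubring.mem_nonunits_iff,
      ValuationSubring.mem_nonunits_iff_or, ValuationSubring.mem_nonunits_iff_or,
      ValuationSubring.mem_comap, map_inv₀]
    change _ ↔ ((g⁻¹ : U ≃ₐ[S] U) y = 0 ∨ ((g⁻¹ : U ≃ₐ[S] U) y)⁻¹ ∉ V₁)
    rw [map_eq_zero_iff _ (g⁻¹ : U ≃ₐ[S] U).injective]
    rfl) (g x)
  rw [← h4, ValuationSubring.mem_comap]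
  have : ((g⁻¹ : U ≃ₐ[S] U) : U →+* U) (g x) = x := g.symm_apply_apply x
  rw [this]

end Pool.Agent.Helper1.BSX
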