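import Pool.Agent.Helper1.BSX.Stmts

set_option autoImplicit false

/-!
# H0: a pair of automorphisms of `A` and `B` extends to `U` (helper46)
-/

namespace Pool.Agent.Helper1.BSX

open Polynomial TensorProduct

/-- the map from the tensor product given by two ring homs is injective if the images are
linearly disjoint -/
theorem h0_tens {C A B V : Type} [Field C] [Field A] [Field B] [Field V] [Algebra C A]
    [Algebra C B] (φ : A →+* V) (ψ : B →+* V)
    (hc : ∀ c, φ (algebraMap C A c) = ψ (algebraMap C B c))
    (hld : ∀ (n : ℕ) (a : Fin n → A) (b : Fin n → B), LinearIndependent C b →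
      ∑ i, φ (a i) * ψ (b i) = 0 → ∀ i, a i = 0) :
    ∃ f : (A ⊗[C] B) →+* V, Function.Injective f ∧ ∀ a b, f (a ⊗ₜ b) = φ a * ψ b := by
  classical
  letI : Algebra C V := (φ.comp (algebraMap C A)).toAlgebra
  let φ' : A →ₐ[C] V := { φ with commutes' := fun c => rfl }
  let ψ' : B →ₐ[C] V := { ψ with commutes' := fun c => (hc c).symm }
  let f := Algebra.TensorProduct.productMap φ' ψ'
  refine ⟨f.toRingHom, ?_, fun a b => rfl⟩
  rw [injective_iff_map_eq_zero]
  intro z hz
  let bs := Module.Basis.ofVectorSpace C B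
  let bA := Algebra.TensorProduct.basis A bs
  have hz1 : z = ∑ i ∈ (bA.repr z).support, (bA.repr z i) ⊗ₜ[C] (bs i) := by
    conv_lhs => rw [← bA.linearCombination_repr z, Finsupp.linearCombination_apply, Finsupp.sum]
    refine Finset.sum_congr rfl fun i _ => ?_
    exact Algebra.TensorProduct.basis_repr_symm_apply' bs _ i
  have hz2 : ∑ i ∈ (bA.repr z).support, φ (bA.repr z i) * ψ (bs i) = 0 := by
    have h1 : f z = 0 := hz
    rw [hz1, map_sum] at h1
    exact h1
  set s := (bA.repr z).support with hs
  let e := s.equivFin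
  have hz3 : ∑ i : Fin s.card, φ (bA.repr z (e.symm i)) * ψ (bs (e.symm i)) = 0 := by
    rw [← hz2, ← Finset.sum_coe_sort s]
    exact Equiv.sum_comp e.symm (fun i : s => φ (bA.repr z i) * ψ (bs i))
  have hli : LinearIndependent C (fun i : Fin s.card => bs (e.symm i)) :=
    bs.linearIndependent.comp _ (Subtype.val_injective.comp e.symm.injective)
  have h0 := hld _ (fun i => bA.repr z (e.symm i)) _ hli hz3
  have hs0 : s = ∅ := by
    by_contra hne
    obtain ⟨i, hi⟩ := Finset.nonempty_iff_ne_empty.mpr hne
    have h1 := h0 (e ⟨i, hi⟩)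
    simp only [Equiv.symm_apply_apply] at h1
    rw [hs, Finsupp.mem_support_iff] at hi
    exact hi h1
  rw [hs0, Finset.sum_empty] at hz1
  exact hz1

/-- extension of ring homs to algebraic extensions -/
theorem h0_ext {T U V : Type} [CommRing T] [Field U] [Field V] [IsAlgClosed V] (f : T →+* U)
    (f' : T →+* V) (hf : Function.Injective f) (hf' : Function.Injective f')
    (halg : ∀ y : U, ∃ p : T[X], p ≠ 0 ∧ p.eval₂ f y = 0) :
    ∃ h : U →+* V, ∀ t, h (f t) = f' t := by
  letI : Algebra T U := f.toAlgebra
  letI : Algebra T V := f'.toAlgebra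
  haveI : IsDomain T := hf.isDomain f
  haveI : FaithfulSMul T U := (faithfulSMul_iff_algebraMap_injective T U).mpr hf
  haveI : FaithfulSMul T V := (faithfulSMul_iff_algebraMap_injective T V).mpr hf'
  haveI : Algebra.IsAlgebraic T U := ⟨fun y => by
    obtain ⟨p, hp, hpy⟩ := halg y
    exact ⟨p, hp, hpy⟩⟩
  let h : U →ₐ[T] V := IsAlgClosed.lift
  exact ⟨h.toRingHom, fun t => h.commutes t⟩

theorem h0_surj {T U V : Type} [CommRing T] [Field U] [Field V] [IsAlgClosed U] (f : T →+* U)
    (f' : T →+* V) (hf : Function.Injective f)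
    (halg : ∀ y : V, ∃ p : T[X], p ≠ 0 ∧ p.eval₂ f' y = 0) (h : U →+* V)
    (hh : ∀ t, h (f t) = f' t) : Function.Surjective h := by
  refine (IsAlgClosed.ringHom_bijective_of_isIntegral h ?_).2
  intro y
  letI : Algebra U V := h.toAlgebra
  have : IsAlgebraic U y := by
    obtain ⟨p, hp, hpy⟩ := halg y
    refine ⟨p.map f, (Polynomial.map_ne_zero_iff hf).mpr hp, ?_⟩
    rw [Polynomial.aeval_def, Polynomial.eval₂_map]
    have : (algebraMap U V).comp f = f' := by
      ext t
      exact hh t
    rw [this]
    exact hpy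
  exact this.isIntegral

/-- elements algebraic over `B(x)` are algebraic over `B[X]` -/
theorem h0_alg {B U : Type} [Field B] [Field U] [Algebra B U] (x : U) (hx : Transcendental B x)
    (h : Algebra.IsAlgebraic (IntermediateField.adjoin B {x}) U) (y : U) :
    ∃ p : B[X][X], p ≠ 0 ∧ p.eval₂ ((aeval x : B[X] →ₐ[B] U) : B[X] →+* U) y = 0 := by
  let L := IntermediateField.adjoin B {x}
  let g : L := IntermediateField.AdjoinSimple.gen B x
  letI : Algebra B[X] L := ((aeval g : B[X] →ₐ[B] L) : B[X] →+* L).toAlgebra
  letI : Algebra B[X] U := ((aeval x : B[X] →ₐ[B] U) : B[X] →+* U).toAlgebra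
  haveI : IsScalarTower B[X] L U := by
    apply IsScalarTower.of_algebraMap_eq
    intro p
    change aeval x p = algebraMap L U (aeval g p)
    rw [← Polynomial.aeval_algebraMap_apply]
    rfl
  have hinj : Function.Injective (algebraMap B[X] U) := by
    intro p q hpq
    have h1 : aeval x (p - q) = 0 := by
      rw [map_sub, sub_eq_zero]
      exact hpq
    have := (transcendental_iff.mp hx) _ h1
    exact sub_eq_zero.mp this
  haveI : Algebra.IsAlgebraic B[X] L := by
    constructor
    intro z
    obtain ⟨r, s, hz⟩ := (IntermediateField.mem_adjoin_simple_iff B (z : U)).mp z.2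
    by_cases hs : aeval x s = 0
    · rw [hs, div_zero] at hz
      have : z = 0 := Subtype.ext hz
      rw [this]
      exact isAlgebraic_zero
    · have hs0 : s ≠ 0 := by
        rintro rfl
        exact hs (map_zero _)
      refine ⟨C s * X - C r, ?_, ?_⟩
      · intro h0
        have := congrArg (fun q => Polynomial.coeff q 1) h0
        simp [Polynomial.coeff_C] at this
        exact hs0 this
      · apply Subtype.val_injective
        have e1 : ((aeval z (C s * X - C r : B[X][X]) : L) : U) =
            aeval x s * (z : U) - aeval x r := by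
          rw [map_sub, map_mul, aeval_C, aeval_X, aeval_C]
          change algebraMap L U (algebraMap B[X] L s * z - algebraMap B[X] L r) = _
          rw [map_sub, map_mul, ← IsScalarTower.algebraMap_apply, ← IsScalarTower.algebraMap_apply]
          rfl
        rw [e1, hz, mul_div_cancel₀ _ hs, sub_self]
        rfl
  haveI : Algebra.IsAlgebraic B[X] U := Algebra.IsAlgebraic.trans B[X] L U
  obtain ⟨p, hp, hpy⟩ := Algebra.IsAlgebraic.isAlgebraic (R := B[X]) y
  exact ⟨p, hp, hpy⟩

theorem st_H0 : ST_H0 := by
  intro C A B U _ _ _ _ _ _ _ _ _ _ _ _ _ x hfree hld γ u g hu hg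
  obtain ⟨-, hx, halg⟩ := hfree
  obtain ⟨f, hf, hfa⟩ := h0_tens (C := C) (algebraMap A U) (algebraMap B U) (fun c => by
    rw [← IsScalarTower.algebraMap_apply, ← IsScalarTower.algebraMap_apply]) hld
  have hc' : ∀ c, ((algebraMap A U).comp (u : A →+* A)) (algebraMap C A c) =
      ((algebraMap B U).comp (g : B →+* B)) (algebraMap C B c) := by
    intro c
    change algebraMap A U (u (algebraMap C A c)) = algebraMap B U (g (algebraMap C B c))
    rw [hu, hg, ← IsScalarTower.algebraMap_apply, ← IsScalarTower.algebraMap_apply]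
  have hld' : ∀ (n : ℕ) (a : Fin n → A) (b : Fin n → B), LinearIndependent C b →
      ∑ i, ((algebraMap A U).comp (u : A →+* A)) (a i) *
        ((algebraMap B U).comp (g : B →+* B)) (b i) = 0 → ∀ i, a i = 0 := by
    intro n a b hb hs i
    have hgb : LinearIndependent C (fun i => g (b i)) := by
      rw [Fintype.linearIndependent_iff] at hb ⊢
      intro c hc i
      have h1 : ∑ j, (γ.symm (c j)) • b j = 0 := by
        apply g.injective
        rw [map_sum, map_zero, ← hc]
        refine Finset.sum_congr rfl fun j _ => ?_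
        rw [Algebra.smul_def, map_mul, hg, RingEquiv.apply_symm_apply, Algebra.smul_def]
      have := hb _ h1 i
      exact (map_eq_zero_iff _ γ.symm.injective).mp this
    have := hld n (fun i => u (a i)) (fun i => g (b i)) hgb hs i
    exact (map_eq_zero_iff _ u.injective).mp this
  obtain ⟨f', hf', hfa'⟩ := h0_tens (C := C) _ _ hc' hld'
  have key : ∀ (k : (A ⊗[C] B) →+* U) (θ : B[X] →+* (A ⊗[C] B)),
      (∀ b, k (θ (Polynomial.C b)) = algebraMap B U b) → k (θ X) = algebraMap A U x →
      ∀ y : U, ∃ p : (A ⊗[C] B)[X], p ≠ 0 ∧ p.eval₂ k y = 0 := by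
    intro k θ h1 h2 y
    have hkθ : k.comp θ = ((aeval (algebraMap A U x) : B[X] →ₐ[B] U) : B[X] →+* U) := by
      apply Polynomial.ringHom_ext
      · intro b
        change k (θ (Polynomial.C b)) = aeval (algebraMap A U x) (Polynomial.C b)
        rw [aeval_C, h1]
      · change k (θ X) = aeval (algebraMap A U x) (X : B[X])
        rw [aeval_X, h2]
    have hinj : Function.Injective θ := by
      intro p q hpq
      have h3 : aeval (algebraMap A U x) (p - q) = 0 := by
        rw [map_sub, sub_eq_zero]
        have h4 := RingHom.congr_fun hkθ p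
        have h5 := RingHom.congr_fun hkθ q
        rw [RingHom.comp_apply] at h4 h5
        rw [hpq] at h4
        exact h4.symm.trans h5
      have := (transcendental_iff.mp hx) _ h3
      exact sub_eq_zero.mp this
    obtain ⟨p, hp, hpy⟩ := h0_alg (algebraMap A U x) hx halg y
    refine ⟨p.map θ, (Polynomial.map_ne_zero_iff hinj).mpr hp, ?_⟩
    rw [Polynomial.eval₂_map, hkθ]
    exact hpy
  have hf1 := key f (Polynomial.eval₂RingHom
    (Algebra.TensorProduct.includeRight : B →ₐ[C] A ⊗[C] B).toRingHom (x ⊗ₜ 1)) (fun b => by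
      change f (Polynomial.eval₂ _ _ (Polynomial.C b)) = _
      rw [Polynomial.eval₂_C]
      change f (1 ⊗ₜ b) = _
      rw [hfa, map_one, one_mul]) (by
      change f (Polynomial.eval₂ _ _ X) = _
      rw [Polynomial.eval₂_X, hfa, map_one, mul_one])
  have hf2 := key f' (Polynomial.eval₂RingHom
    ((Algebra.TensorProduct.includeRight : B →ₐ[C] A ⊗[C] B).toRingHom.comp (g.symm : B →+* B))
      ((u.symm x) ⊗ₜ 1)) (fun b => by
      change f' (Polynomial.eval₂ _ _ (Polynomial.C b)) = _
      rw [Polynomial.eval₂_C]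
      change f' (1 ⊗ₜ (g.symm b)) = _
      rw [hfa', map_one, one_mul]
      change algebraMap B U (g (g.symm b)) = _
      rw [RingEquiv.apply_symm_apply]) (by
      change f' (Polynomial.eval₂ _ _ X) = _
      rw [Polynomial.eval₂_X, hfa', map_one, mul_one]
      change algebraMap A U (u (u.symm x)) = _
      rw [RingEquiv.apply_symm_apply])
  obtain ⟨h, hh⟩ := h0_ext f f' hf hf' hf1
  have hs := h0_surj f f' hf hf2 h hh
  refine ⟨RingEquiv.ofBijective h ⟨h.injective, hs⟩, fun a => ?_, fun b => ?_⟩
  · change h (algebraMap A U a) = _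
    have h1 := hh (a ⊗ₜ 1)
    rw [hfa, hfa', map_one, map_one, mul_one, mul_one] at h1
    exact h1
  · change h (algebraMap B U b) = _
    have h1 := hh (1 ⊗ₜ b)
    rw [hfa, hfa', map_one, map_one, one_mul, one_mul] at h1
    exact h1

end Pool.Agent.Helper1.BSX
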